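import Pool.Agent.H96.SG5

open Set Filter Topology

namespace Pool.Agent.Results.MP_46f8bc_an.QTwoNo

/-- Elements of the algebra are functions `f : ℚ → ℂ` vanishing on `q ≤ 0` with
`∑ ‖f q‖ exp (-q^2) < ∞`, multiplied by convolution; every norm-continuous semigroup is zero. -/
theorem result (a : ℝ → ℚ → ℂ)
    (h0 : ∀ t : ℝ, 0 < t → ∀ q : ℚ, q ≤ 0 → a t q = 0)
    (h1 : ∀ t : ℝ, 0 < t → Summable fun q : ℚ => ‖a t q‖ * Real.exp (-(q : ℝ) ^ 2))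
    (h2 : ∀ s t : ℝ, 0 < s → 0 < t → ∀ r : ℚ, a (s + t) r = ∑' p : ℚ, a s p * a t (r - p))
    (h3 : ∀ t : ℝ, 0 < t → Tendsto
      (fun s : ℝ => ∑' q : ℚ, ‖a s q - a t q‖ * Real.exp (-(q : ℝ) ^ 2)) (𝓝 t) (𝓝 0)) :
    ∀ t : ℝ, 0 < t → a t = 0 := by
  let ι : ℚ →+ ℝ := (Rat.castHom ℝ).toAddMonoidHom
  have hι : Function.Injective ι := Rat.cast_injective
  intro t ht
  exact funext fun g => Pool.Agent.H96.SG.weighted_zero (ι := ι) hι a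
    (fun t ht g hg => h0 t ht g (by exact_mod_cast (show (g : ℝ) ≤ 0 from hg))) h1 h2 h3 ht g

end Pool.Agent.Results.MP_46f8bc_an.QTwoNo
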